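import Pool.Agent.Q295.BZ.Stm
import Pool.Agent.Helper807.BS.LIndep

/-!
# Project BZ of helper295, job BZ-CBX

Adapted from `Pool.Agent.Helper807.BS.LIndep` and `Pool.Agent.Helper807.BS.LCbmex` (dimension two).
-/

set_option autoImplicit false

namespace Pool.Agent.Q166.BZ

open MeasureTheory ProbabilityTheory Set Filter
open scoped NNReal ENNReal Topology
open Pool.Agent.Q295.BZ
open Pool.Agent.Helper807.BS (indep_sup_10092 indep_null_10092)

universe u

variable {Ω : Type u} [mΩ : MeasurableSpace Ω]

/-- the increment of one coordinate after time `s` is independent of the completed past -/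
theorem indep_increment (P : Measure Ω) [IsProbabilityMeasure P] {d : ℕ}
    (B : Fin d → ℝ≥0 → Ω → ℝ) (hB : IsBM B P) (i : Fin d) (s t : ℝ≥0) (hst : s ≤ t) :
    Indep (Fil B P s) (MeasurableSpace.comap (fun ω => B i t ω - B i s ω) (borel ℝ)) P := by
  classical
  have hX := (hB.bm i).toIsPreBrownianReal
  set f : Ω → ℝ≥0 → ℝ := fun ω t => B i t ω with hf
  set f' : Ω → ↥(Finset.univ.erase i : Finset (Fin d)) → ℝ≥0 → ℝ := fun ω j t => B j t ω with hf'
  have mf : Measurable f := measurable_pi_lambda _ fun t => hB.meas i t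
  have mf' : Measurable f' := measurable_pi_lambda _ fun j =>
    measurable_pi_lambda _ fun t => hB.meas j t
  have hind : IndepFun f f' P := by
    have h1 := hB.indep.indepFun_finset {i} (Finset.univ.erase i) (by simp)
      (fun j => measurable_pi_lambda _ fun t => hB.meas j t)
    exact h1.comp (φ := fun g : ↥({i} : Finset (Fin d)) → ℝ≥0 → ℝ =>
      g ⟨i, Finset.mem_singleton_self i⟩) (ψ := id) (measurable_pi_apply _) measurable_id
  set fs : Ω → Set.Iic s → ℝ := fun ω r => B i r ω with hfs
  have mfs : Measurable fs := measurable_pi_lambda _ fun t => hB.meas i t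
  set sh : Ω → ℝ≥0 → ℝ := fun ω r => B i (s + r) ω - B i s ω with hsh
  have hD1 : (fun ω => B i t ω - B i s ω) = (fun g : ℝ≥0 → ℝ => g (t - s)) ∘ sh := by
    funext ω
    simp only [hsh, Function.comp, add_tsub_cancel_of_le hst]
  have hD2 : (fun ω => B i t ω - B i s ω) = (fun g : ℝ≥0 → ℝ => g t - g s) ∘ f := rfl
  have hfs2 : fs = (fun (g : ℝ≥0 → ℝ) (r : Set.Iic s) => g r) ∘ f := rfl
  have i1 : IndepFun (fun ω => B i t ω - B i s ω) fs P := by
    rw [hD1]
    exact (hX.indepFun_shift s).comp (φ := fun g : ℝ≥0 → ℝ => g (t - s)) (ψ := id)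
      (measurable_pi_apply _) measurable_id
  have hDm : Measurable (fun ω => B i t ω - B i s ω) := (hB.meas i t).sub (hB.meas i s)
  have hDle : MeasurableSpace.comap (fun ω => B i t ω - B i s ω) (borel ℝ) ≤ mΩ := by
    have := hDm.comap_le
    rwa [BorelSpace.measurable_eq (α := ℝ)] at this
  have hDf : MeasurableSpace.comap (fun ω => B i t ω - B i s ω) (borel ℝ) ≤
      MeasurableSpace.comap f inferInstance := by
    rw [hD2, ← MeasurableSpace.comap_comp, ← BorelSpace.measurable_eq (α := ℝ)]
    refine MeasurableSpace.comap_mono ?_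
    exact Measurable.comap_le (by fun_prop)
  have hGf : MeasurableSpace.comap fs inferInstance ≤ MeasurableSpace.comap f inferInstance := by
    rw [hfs2, ← MeasurableSpace.comap_comp]
    refine MeasurableSpace.comap_mono ?_
    exact Measurable.comap_le (measurable_pi_lambda _ fun r => measurable_pi_apply _)
  have i2 : Indep (MeasurableSpace.comap (fun ω => B i t ω - B i s ω) (borel ℝ))
      (MeasurableSpace.comap fs inferInstance) P := by
    have := (IndepFun_iff_Indep _ _ _).1 i1
    rwa [BorelSpace.measurable_eq (α := ℝ)] at this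
  have i3 : Indep (MeasurableSpace.comap (fun ω => B i t ω - B i s ω) (borel ℝ) ⊔
      MeasurableSpace.comap fs inferInstance) (MeasurableSpace.comap f' inferInstance) P :=
    indep_of_indep_of_le_left ((IndepFun_iff_Indep _ _ _).1 hind) (sup_le hDf hGf)
  refine indep_null_10092 P (indep_sup_10092 P mfs.comap_le mf'.comap_le hDle i2 i3) ?_
  have hle : Fil B P s ≤ eventuallyMeasurableSpace (MeasurableSpace.comap fs inferInstance ⊔
      MeasurableSpace.comap f' inferInstance) (ae P) := by
    refine MeasurableSpace.generateFrom_le ?_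
    rintro A (⟨k, r, C, hr, hC, rfl⟩ | ⟨hA, hA0⟩)
    · refine le_eventuallyMeasurableSpace _ ?_
      rcases eq_or_ne k i with rfl | hki
      · refine (le_sup_left : _ ≤ MeasurableSpace.comap fs inferInstance ⊔
          MeasurableSpace.comap f' inferInstance) _ ?_
        have hr' : r ≤ s := by exact_mod_cast hr
        have hm : Measurable (fun g : Set.Iic s → ℝ => g ⟨r, hr'⟩) := measurable_pi_apply _
        exact ⟨_, hm hC, rfl⟩
      · refine (le_sup_right : _ ≤ MeasurableSpace.comap fs inferInstance ⊔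
          MeasurableSpace.comap f' inferInstance) _ ?_
        have hmem : k ∈ Finset.univ.erase i := Finset.mem_erase.mpr ⟨hki, Finset.mem_univ _⟩
        have hm : Measurable (fun g : ↥(Finset.univ.erase i : Finset (Fin d)) → ℝ≥0 → ℝ =>
            g ⟨k, hmem⟩ r) := (measurable_pi_apply r).comp (measurable_pi_apply _)
        exact ⟨_, hm hC, rfl⟩
    · refine ⟨∅, @MeasurableSet.empty _ (MeasurableSpace.comap fs inferInstance ⊔
          MeasurableSpace.comap f' inferInstance), ?_⟩
      exact ae_eq_empty.2 hA0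
  intro A hA
  exact hle A hA

theorem cbx : S_CBX.{u} := by
  intro Ω _ P _ d B hB i
  classical
  have hc : ∀ᵐ ω ∂P, Continuous (fun t => B i t ω) := (hB.bm i).cont
  obtain ⟨N, hN1, hN2, hN3⟩ := exists_measurable_superset_of_null (ae_iff.1 hc)
  let W : ℝ → Ω → ℝ := fun t ω => if ω ∈ N then 0 else B i t.toNNReal ω
  have hWae : ∀ t, ∀ᵐ ω ∂P, W t ω = bt B i t ω := by
    intro t
    have : ∀ᵐ ω ∂P, ω ∉ N := measure_eq_zero_iff_ae_notMem.1 hN3
    filter_upwards [this] with ω hω
    simp only [W, bt, if_neg hω]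
  have hincr : ∀ s t, (fun ω => W t ω - W s ω) =ᵐ[P]
      (fun ω => B i t.toNNReal ω - B i s.toNNReal ω) := by
    intro s t
    filter_upwards [hWae s, hWae t] with ω h1 h2
    rw [h1, h2]; rfl
  have hle : ∀ t, Fil B P t ≤ ‹MeasurableSpace Ω› := by
    intro t
    apply MeasurableSpace.generateFrom_le
    rintro A (⟨i, s, C, -, hC, rfl⟩ | ⟨hA, -⟩)
    · exact hB.meas i s hC
    · exact hA
  refine ⟨W, ⟨?_, hle, ?_, ?_, ?_, ?_, ?_⟩, hWae⟩
  · intro s t hst
    apply MeasurableSpace.generateFrom_mono
    rintro A (⟨i, r, C, hr, hC, rfl⟩ | hA)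
    · exact Or.inl ⟨i, r, C, hr.trans hst, hC, rfl⟩
    · exact Or.inr hA
  · intro t ht
    apply Measurable.ite
    · exact MeasurableSpace.measurableSet_generateFrom (Or.inr ⟨hN2, hN3⟩)
    · exact measurable_const
    · intro C hC
      exact MeasurableSpace.measurableSet_generateFrom
        (Or.inl ⟨i, t.toNNReal, C, (Real.coe_toNNReal t ht).le, hC, rfl⟩)
  · intro ω
    by_cases hω : ω ∈ N
    · simp only [W, if_pos hω]
      exact continuous_const
    · have h1 : Continuous (fun t => B i t ω) := by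
        by_contra hcon
        exact hω (hN1 hcon)
      simp only [W, if_neg hω]
      exact h1.comp continuous_real_toNNReal
  · intro s t hs hst
    have h1 := (hB.bm i).toIsPreBrownianReal.hasLaw_sub t.toNNReal s.toNNReal
    have h2 : nndist ((t.toNNReal : ℝ≥0) : ℝ) ((s.toNNReal : ℝ≥0) : ℝ) = (t - s).toNNReal := by
      apply NNReal.coe_injective
      rw [coe_nndist, Real.dist_eq, Real.coe_toNNReal _ (hs.trans hst), Real.coe_toNNReal _ hs,
        Real.coe_toNNReal _ (sub_nonneg.2 hst), abs_of_nonneg (sub_nonneg.2 hst)]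
    have h3 : HasLaw (B i t.toNNReal - B i s.toNNReal) (gaussianReal 0 (t - s).toNNReal) P := by
      rw [← h2]; exact h1
    exact h3.congr (hincr s t)
  · intro s t hs hst
    have h1 := indep_increment P B hB i s.toNNReal t.toNNReal (Real.toNNReal_le_toNNReal hst)
    rw [Real.coe_toNNReal s hs] at h1
    rw [Indep_iff] at h1 ⊢
    rintro t1 _ ht1 ⟨C, hC, rfl⟩
    have h2 := h1 t1 ((fun ω => B i t.toNNReal ω - B i s.toNNReal ω) ⁻¹' C) ht1 ⟨C, hC, rfl⟩
    have h3 : ((fun ω => W t ω - W s ω) ⁻¹' C : Set Ω) =ᵐ[P]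
        ((fun ω => B i t.toNNReal ω - B i s.toNNReal ω) ⁻¹' C : Set Ω) := by
      have h4 := hincr s t
      filter_upwards [h4] with ω hω
      apply propext
      show (W t ω - W s ω) ∈ C ↔ (B i t.toNNReal ω - B i s.toNNReal ω) ∈ C
      have : W t ω - W s ω = B i t.toNNReal ω - B i s.toNNReal ω := hω
      rw [this]
    rw [measure_congr h3, ← h2]
    exact measure_congr ((ae_eq_refl t1).inter h3)
  · intro A hA hA0
    exact MeasurableSpace.measurableSet_generateFrom (Or.inr ⟨hA, hA0⟩)

end Pool.Agent.Q166.BZ
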